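import Pool.Agent.Lib.MP_afcc06_nt.AllFive

/-!
# The sums `Z_p(m)` modulo `p^2` at the five values `m = -112, -400, -2704, -24304, -1123600`
-/

set_option autoImplicit false

open Finset

namespace Pool.Agent.Results.MP_afcc06_nt

/-- `a_n = ∑_{k ≤ n} C(n,k)^3`. -/
def cubeSum (n : ℕ) : ℕ := ∑ k ∈ range (n + 1), n.choose k ^ 3

/-- `Z_p(m) = ∑_{n<p} C(2n,n) a_n m^(-n)`, a rational number. -/
def zSum (p : ℕ) (m : ℤ) : ℚ :=
  ∑ n ∈ range p, ((2 * n).choose n : ℚ) * (cubeSum n : ℚ) / (m : ℚ) ^ n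

/-- `x ≡ y` modulo `p^2` in the ring of rational numbers with denominator prime to `p`:
`x - y = p^2 (a / d)` with integers `a, d`, `p ∤ d`. -/
def CongrSq (p : ℕ) (x y : ℚ) : Prop :=
  ∃ a d : ℤ, ¬ (p : ℤ) ∣ d ∧ x - y = (p : ℚ) ^ 2 * ((a : ℚ) / (d : ℚ))

/-- The values `f(b)`. -/
def fval : ℕ → ℤ
  | 7 => -112
  | 11 => -400
  | 19 => -2704
  | 31 => -24304
  | 59 => -1123600
  | _ => 0

namespace FiveValues

theorem sum_eq (p : ℕ) (m : ℤ) : zSum p m = Pool.Agent.Lib.MP_afcc06_nt.Z p m := by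
  simp only [zSum, Pool.Agent.Lib.MP_afcc06_nt.Z, cubeSum]
  push_cast
  rfl

theorem holds : ∀ b ∈ ({7, 11, 19, 31, 59} : Finset ℕ),
    Pool.Agent.Lib.MP_afcc06_nt.Holds b (fval b) := by
  intro b hb
  simp only [Finset.mem_insert, Finset.mem_singleton] at hb
  rcases hb with rfl | rfl | rfl | rfl | rfl
  · exact Pool.Agent.Lib.MP_afcc06_nt.holds7
  · exact Pool.Agent.Lib.MP_afcc06_nt.holds11
  · exact Pool.Agent.Lib.MP_afcc06_nt.holds19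
  · exact Pool.Agent.Lib.MP_afcc06_nt.holds31
  · exact Pool.Agent.Lib.MP_afcc06_nt.holds59

theorem result : ∀ b ∈ ({7, 11, 19, 31, 59} : Finset ℕ), ∀ (p : ℕ) [Fact p.Prime],
    p ≠ 2 → p ≠ 3 → p ≠ b → ¬ (p : ℤ) ∣ fval b →
    (∀ x y : ℤ, x ^ 2 + 3 * b * y ^ 2 = p →
      CongrSq p (zSum p (fval b)) (4 * (x : ℚ) ^ 2 - 2 * p)) ∧
    (∀ x y : ℤ, 3 * x ^ 2 + b * y ^ 2 = p →
      CongrSq p (zSum p (fval b)) (2 * p - 12 * (x : ℚ) ^ 2)) ∧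
    (∀ x y : ℤ, x ^ 2 + 3 * b * y ^ 2 = 2 * p →
      CongrSq p (zSum p (fval b)) (2 * (x : ℚ) ^ 2 - 2 * p)) ∧
    (∀ x y : ℤ, 3 * x ^ 2 + b * y ^ 2 = 2 * p →
      CongrSq p (zSum p (fval b)) (2 * p - 6 * (x : ℚ) ^ 2)) ∧
    (legendreSym p (-3 * b) = -1 → CongrSq p (zSum p (fval b)) 0) := by
  intro b hb p hp hp2 hp3 hpb hm
  have h := holds b hb p hp.out hp2 hp3 hpb hm
  simp only [sum_eq]
  exact ⟨h.1, h.2.1, h.2.2.1, h.2.2.2.1, h.2.2.2.2 hp⟩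

end FiveValues

end Pool.Agent.Results.MP_afcc06_nt
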